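import Mathlib
import Pool.Agent.P.MP_cda11a_an.Core

set_option autoImplicit false

namespace Pool.Agent.Results.MP_cda11a_an.NoShadowing

open Topology

/-- The iterate `G^n` of a relation. -/
def RelPow {X : Type*} (G : Set (X × X)) (n : ℕ) : Set (X × X) :=
  {p | ∃ x : ℕ → X, x 0 = p.1 ∧ x n = p.2 ∧ ∀ k < n, (x k, x (k + 1)) ∈ G}

/-- `x` is a `(V,1)`-pseudo-orbit. -/
def IsPseudoOrbitOne {X : Type*} (G V : Set (X × X)) (x : ℕ → X) : Prop :=
  ∀ m y, (x m, y) ∈ G → (y, x (m + 1)) ∈ V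

/-- Some point `(U,2)`-shadows `x`: some trajectory of `G` stays `U`-close to `x`. -/
def IsShadowedTwo {X : Type*} (G U : Set (X × X)) (x : ℕ → X) : Prop :=
  ∃ y : ℕ → X, (∀ m, (y m, y (m + 1)) ∈ G) ∧ ∀ m, (y m, x m) ∈ U

/-- The `(1,2)`-shadowing property; entourages are the neighbourhoods of the diagonal. -/
def ShadowingOneTwo {X : Type*} [TopologicalSpace X] (G : Set (X × X)) : Prop :=
  ∀ U ∈ 𝓝ˢ (Set.diagonal X), ∃ V ∈ 𝓝ˢ (Set.diagonal X),
    ∀ x : ℕ → X, IsPseudoOrbitOne G V x → IsShadowedTwo G U x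

theorem result : ∃ (X : Type) (_ : TopologicalSpace X), Nonempty X ∧ Countable X ∧
    CompactSpace X ∧ T2Space X ∧ TotallyDisconnectedSpace X ∧
    ∃ G : Set (X × X), G.Nonempty ∧ IsClosed G ∧ Set.diagonal X ⊆ RelPow G 2 ∧
      ¬ ShadowingOneTwo G := by
  obtain ⟨G, hG, h2, U, hU, hV⟩ := Pool.Agent.P.MP_cda11a_an.counterexample
  have : Countable (OnePoint ℤ) := inferInstanceAs (Countable (Option ℤ))
  refine ⟨OnePoint ℤ × OnePoint ℤ, inferInstance, inferInstance, inferInstance, inferInstance,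
    inferInstance, inferInstance, G, ?_, hG, ?_, ?_⟩
  · obtain ⟨q, hq, -⟩ := h2 default
    exact ⟨_, hq⟩
  · rintro ⟨p, p'⟩ (h : p = p')
    subst h
    obtain ⟨q, hq, hq'⟩ := h2 p
    refine ⟨fun k => if k = 1 then q else p, rfl, rfl, fun k hk => ?_⟩
    interval_cases k
    · exact hq
    · exact hq'
  · intro h
    obtain ⟨V, hVm, hs⟩ := h U hU
    obtain ⟨x, hx, hn⟩ := hV V hVm
    exact hn (hs x hx)

end Pool.Agent.Results.MP_cda11a_an.NoShadowing
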